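import Pool.Agent.N437.SQ.Stm

/-!
# Project SQ, leaf F3: the number of small subsets
-/

set_option autoImplicit false

namespace Pool.Agent.N75.SQ

open Finset Pool.Agent.N437.SQ

theorem t_F3 : S_F3 := by
  intro α _ _ n s b hs hsn hα
  have hs0 : (0 : ℝ) < s := by exact_mod_cast hs
  have hn0 : (0 : ℝ) < n := by exact_mod_cast (by omega : 0 < n)
  set t : ℝ := (s : ℝ) / n with ht
  have ht0 : 0 < t := by positivity
  have ht1 : t ≤ 1 := by
    rw [ht, div_le_one hn0]
    exact_mod_cast hsn
  have e1 : ((n : ℝ) / s) ^ b = (t ^ b)⁻¹ := by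
    rw [ht, ← inv_pow, inv_div]
  rw [e1, inv_mul_eq_div, le_div_iff₀ (by positivity)]
  calc (((univ : Finset (Finset α)).filter fun B => B.card ≤ b).card : ℝ) * t ^ b
      = ∑ B ∈ (univ : Finset (Finset α)).filter (fun B => B.card ≤ b), t ^ b := by
        rw [sum_const, nsmul_eq_mul]
    _ ≤ ∑ B ∈ (univ : Finset (Finset α)).filter (fun B => B.card ≤ b), t ^ B.card :=
        sum_le_sum fun B hB => pow_le_pow_of_le_one ht0.le ht1 (mem_filter.1 hB).2
    _ ≤ ∑ B : Finset α, t ^ B.card :=
        sum_le_sum_of_subset_of_nonneg (filter_subset _ _) fun _ _ _ => by positivity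
    _ = (t + 1) ^ Fintype.card α := by
        have := Fintype.sum_pow_mul_eq_add_pow α t 1
        simpa using this
    _ ≤ (t + 1) ^ n := pow_le_pow_right₀ (by linarith) hα
    _ ≤ Real.exp t ^ n := by
        gcongr
        exact Real.add_one_le_exp t
    _ = Real.exp s := by
        rw [← Real.exp_nat_mul, ht, mul_div_cancel₀ _ hn0.ne']

end Pool.Agent.N75.SQ
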